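import Pool.Agent.X37.PE.Bad
import Pool.Agent.X9.SQ.SumK

/-!
# The residue classes modulo the large prime factors of the orders
-/

set_option autoImplicit false

namespace Pool.Agent.X37.PE

open Finset

open Classical in
/-- the primes `q ≤ Z` with `C q ^ κ ≤ l` for which `l` divides the order -/
noncomputable def Qs (κ C : ℝ) (Z l : ℕ) : Finset ℕ :=
  (range (Z + 1)).filter (fun q => q.Prime ∧ sq q * sq q = 2 ∧ l ∣ orderOf (al q) ∧ C * (q : ℝ) ^ κ ≤ l)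

lemma mem_Qs {κ C : ℝ} {Z l q : ℕ} : q ∈ Qs κ C Z l ↔
    q ≤ Z ∧ q.Prime ∧ sq q * sq q = 2 ∧ l ∣ orderOf (al q) ∧ C * (q : ℝ) ^ κ ≤ l := by
  classical
  unfold Qs
  rw [mem_filter, mem_range, Nat.lt_succ_iff]

open Classical in
/-- the bad classes modulo `l` -/
noncomputable def badK (κ C : ℝ) (K R Z l : ℕ) : Finset ℕ := (range l).filter (fun i => ∃ q ∈ Qs κ C Z l,
  orderOf (al q) ∣ K * l ∧ ∃ r ≤ R, PP q (al q ^ (K * i) * al q ^ r) ∨ PP q (al q ^ (K * i) * be q ^ r))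

lemma badK_lt {κ C : ℝ} {K R Z l i : ℕ} (h : i ∈ badK κ C K R Z l) : i < l := by
  classical
  unfold badK at h
  exact mem_range.1 (mem_filter.1 h).1

lemma badK_card {κ C : ℝ} {K R Z l : ℕ} (hl : l.Prime) (hlK : ¬ l ∣ K) :
    (badK κ C K R Z l).card ≤ (Qs κ C Z l).card * ((R + 1) * 4) := by
  classical
  obtain ⟨Q, hQ⟩ : ∃ Q : Finset ℕ, Q = (Qs κ C Z l).filter (fun q => orderOf (al q) ∣ K * l) := ⟨_, rfl⟩
  have hsub : badK κ C K R Z l ⊆ Q.biUnion (fun q => (range (R + 1)).biUnion (fun r =>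
      (range l).filter (fun i => PP q (al q ^ (K * i) * al q ^ r)) ∪
      (range l).filter (fun i => PP q (al q ^ (K * i) * be q ^ r)))) := by
    intro i hi
    unfold badK at hi
    rw [mem_filter] at hi
    obtain ⟨hi1, q, g1, g5, r, hr, g6⟩ := hi
    rw [mem_biUnion]
    refine ⟨q, ?_, ?_⟩
    · rw [hQ, mem_filter]
      exact ⟨g1, g5⟩
    · rw [mem_biUnion]
      refine ⟨r, mem_range.2 (by omega), ?_⟩
      rw [mem_union, mem_filter, mem_filter]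
      rcases g6 with g6 | g6
      · exact Or.inl ⟨hi1, g6⟩
      · exact Or.inr ⟨hi1, g6⟩
  refine (card_le_card hsub).trans ?_
  have h1 : ∀ q ∈ Q, ((range (R + 1)).biUnion (fun r =>
      (range l).filter (fun i => PP q (al q ^ (K * i) * al q ^ r)) ∪
      (range l).filter (fun i => PP q (al q ^ (K * i) * be q ^ r)))).card ≤ (R + 1) * 4 := by
    intro q hq
    rw [hQ, mem_filter, mem_Qs] at hq
    obtain ⟨⟨-, g1, g3, g4, -⟩, g5⟩ := hq
    have h2 := card_biUnion_le_card_mul (range (R + 1)) (fun r =>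
      (range l).filter (fun i => PP q (al q ^ (K * i) * al q ^ r)) ∪
      (range l).filter (fun i => PP q (al q ^ (K * i) * be q ^ r))) 4 (fun r _ => by
        refine (card_union_le _ _).trans ?_
        have c1 := two_classes g1 g3 hl hlK g4 g5 (t := al q ^ r) (t' := be q ^ r)
          (by rw [← mul_pow, al_be g3, one_pow])
        have c2 := two_classes g1 g3 hl hlK g4 g5 (t := be q ^ r) (t' := al q ^ r)
          (by rw [mul_comm, ← mul_pow, al_be g3, one_pow])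
        omega)
    rwa [card_range] at h2
  refine (card_biUnion_le_card_mul Q _ _ h1).trans ?_
  apply Nat.mul_le_mul_right
  rw [hQ]
  exact card_le_card (filter_subset _ _)

lemma badK_mod {κ C : ℝ} {K R Z l j q r : ℕ} (hl : 0 < l) (h1 : q ∈ Qs κ C Z l)
    (h5 : orderOf (al q) ∣ K * l) (hr : r ≤ R)
    (h6 : PP q (al q ^ (K * j) * al q ^ r) ∨ PP q (al q ^ (K * j) * be q ^ r)) : j % l ∈ badK κ C K R Z l := by
  classical
  unfold badK
  rw [mem_filter, mem_range]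
  refine ⟨Nat.mod_lt _ hl, q, h1, h5, r, hr, ?_⟩
  have e : al q ^ (K * j) = al q ^ (K * (j % l)) := by
    conv_lhs => rw [← Nat.div_add_mod j l]
    rw [mul_add, pow_add, ← mul_assoc, pow_mul, orderOf_dvd_iff_pow_eq_one.1 h5, one_pow, one_mul]
  rwa [← e]

lemma Qs_card {κ C : ℝ} (hκ : 1 / 2 ≤ κ) (hC : 1 ≤ C) (Z l : ℕ) (hl : l.Prime) :
    ((Qs κ C Z l).card : ℝ) ≤ l / C ^ 2 := by
  classical
  have hl0 : (0 : ℝ) < l := by exact_mod_cast hl.pos
  have hC0 : 0 < C := by linarith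
  obtain ⟨Z', hZ'⟩ : ∃ Z' : ℕ, Z' = ⌊((l : ℝ) / C) ^ 2⌋₊ := ⟨_, rfl⟩
  have hsub : Qs κ C Z l ⊆ (Finset.range (Z' + 1)).filter (fun q => q.Prime ∧ l ∣ q - 1) := by
    intro q hq
    rw [mem_Qs] at hq
    obtain ⟨g0, g1, g2, g3, g4⟩ := hq
    rw [Finset.mem_filter, Finset.mem_range]
    refine ⟨?_, g1, g3.trans (ord_dvd g1 g2)⟩
    have hq1 : (1 : ℝ) ≤ q := by exact_mod_cast g1.pos
    have h2 : (q : ℝ) ^ (1 / 2 : ℝ) ≤ (l : ℝ) / C := by
      have h3 : (q : ℝ) ^ (1 / 2 : ℝ) ≤ (q : ℝ) ^ κ := Real.rpow_le_rpow_of_exponent_le hq1 hκ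
      rw [le_div_iff₀ hC0]
      calc (q : ℝ) ^ (1 / 2 : ℝ) * C ≤ (q : ℝ) ^ κ * C := mul_le_mul_of_nonneg_right h3 hC0.le
        _ = C * (q : ℝ) ^ κ := mul_comm _ _
        _ ≤ l := g4
    have h3 : (q : ℝ) ≤ ((l : ℝ) / C) ^ 2 := by
      have h4 : ((q : ℝ) ^ (1 / 2 : ℝ)) ^ 2 ≤ ((l : ℝ) / C) ^ 2 := pow_le_pow_left₀ (by positivity) h2 2
      have h5 : ((q : ℝ) ^ (1 / 2 : ℝ)) ^ 2 = q := by
        rw [← Real.rpow_natCast, ← Real.rpow_mul (by linarith)]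
        norm_num
      rwa [h5] at h4
    rw [Nat.lt_succ_iff, hZ']
    exact Nat.le_floor h3
  have h1 : (Qs κ C Z l).card ≤ Z' / l := (Finset.card_le_card hsub).trans (card_Q Z' l hl.pos)
  have h2 : ((Qs κ C Z l).card : ℝ) ≤ (Z' : ℝ) / l := by
    refine le_trans ?_ Nat.cast_div_le
    exact_mod_cast h1
  have h3 : (Z' : ℝ) ≤ ((l : ℝ) / C) ^ 2 := by rw [hZ']; exact Nat.floor_le (by positivity)
  calc ((Qs κ C Z l).card : ℝ) ≤ (Z' : ℝ) / l := h2
    _ ≤ ((l : ℝ) / C) ^ 2 / l := div_le_div_of_nonneg_right h3 hl0.le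
    _ = l / C ^ 2 := by field_simp

/-- the sum of the densities -/
lemma sum_Qs {κ C : ℝ} (hκ : 1 / 2 ≤ κ) (hκ1 : κ < 1) (hC : 1 ≤ C) (Lb Z : ℕ) (hZ : 2 ≤ Z) :
    ∑ l ∈ (Ioc Lb Z).filter Nat.Prime, ((Qs κ C Z l).card : ℝ) / l ≤
      1 / C * (5 / (1 - κ) ^ 2 * ((Z : ℝ) ^ (1 - κ) / Real.log Z)) := by
  classical
  have hC0 : 0 < C := by linarith
  obtain ⟨P, hP⟩ : ∃ P : Finset ℕ, P = (Ioc Lb Z).filter Nat.Prime := ⟨_, rfl⟩
  have hPp : ∀ l ∈ P, l.Prime := by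
    intro l hl
    rw [hP, Finset.mem_filter] at hl
    exact hl.2
  have h1 : ∀ l ∈ P, ((Qs κ C Z l).card : ℝ) / l =
      ∑ q ∈ (Icc 1 Z).filter Nat.Prime, (if sq q * sq q = 2 ∧ l ∣ orderOf (al q) ∧ C * (q : ℝ) ^ κ ≤ l then 1 / (l : ℝ) else 0) := by
    intro l _
    rw [← Finset.sum_filter, Finset.sum_const, nsmul_eq_mul]
    have e : ((Icc 1 Z).filter Nat.Prime).filter (fun q => sq q * sq q = 2 ∧ l ∣ orderOf (al q) ∧ C * (q : ℝ) ^ κ ≤ l) =
        Qs κ C Z l := by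
      ext q
      rw [Finset.mem_filter, Finset.mem_filter, mem_Qs, Finset.mem_Icc]
      constructor
      · rintro ⟨⟨⟨a1, a2⟩, a3⟩, a4, a5, a6⟩
        exact ⟨a2, a3, a4, a5, a6⟩
      · rintro ⟨a1, a2, a3, a4, a5⟩
        exact ⟨⟨⟨a2.pos, a1⟩, a2⟩, a3, a4, a5⟩
    rw [e]
    ring
  rw [← hP, Finset.sum_congr rfl h1, Finset.sum_comm]
  have h2 : ∀ q ∈ (Icc 1 Z).filter Nat.Prime,
      ∑ l ∈ P, (if sq q * sq q = 2 ∧ l ∣ orderOf (al q) ∧ C * (q : ℝ) ^ κ ≤ l then 1 / (l : ℝ) else 0) ≤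
      1 / C * (q : ℝ) ^ (-κ) := by
    intro q hq
    rw [Finset.mem_filter, Finset.mem_Icc] at hq
    have hqp := hq.2
    have hq1 : (1 : ℝ) ≤ q := by exact_mod_cast hqp.pos
    have hq0 : (0 : ℝ) < q := by linarith
    have hqk : 0 < (q : ℝ) ^ κ := Real.rpow_pos_of_pos hq0 _
    rw [← Finset.sum_filter]
    have hcard : (P.filter (fun l => sq q * sq q = 2 ∧ l ∣ orderOf (al q) ∧ C * (q : ℝ) ^ κ ≤ l)).card ≤ 1 := by
      rw [Finset.card_le_one]
      intro l hl l' hl'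
      rw [Finset.mem_filter] at hl hl'
      by_contra hne
      have hcop : Nat.Coprime l l' := (Nat.coprime_primes (hPp l hl.1) (hPp l' hl'.1)).2 hne
      have hd : l * l' ∣ q - 1 := by
        apply (Nat.Coprime.mul_dvd_of_dvd_of_dvd hcop hl.2.2.1 hl'.2.2.1).trans
        exact ord_dvd hqp hl.2.1
      have hle := Nat.le_of_dvd (by have := hqp.two_le; omega) hd
      have hle2 : l * l' < q := by have := hqp.two_le; omega
      have hle3 : (l : ℝ) * l' < q := by exact_mod_cast hle2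
      have h3 : (C * (q : ℝ) ^ κ) * (C * (q : ℝ) ^ κ) ≤ (l : ℝ) * l' :=
        mul_le_mul hl.2.2.2 hl'.2.2.2 (by positivity) (by positivity)
      have h4 : (q : ℝ) ≤ (q : ℝ) ^ κ * (q : ℝ) ^ κ := by
        rw [← Real.rpow_add hq0]
        calc (q : ℝ) = (q : ℝ) ^ (1 : ℝ) := (Real.rpow_one _).symm
          _ ≤ _ := Real.rpow_le_rpow_of_exponent_le hq1 (by linarith)
      have h5 : 1 * ((q : ℝ) ^ κ * (q : ℝ) ^ κ) ≤ (C * C) * ((q : ℝ) ^ κ * (q : ℝ) ^ κ) :=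
        mul_le_mul_of_nonneg_right (by nlinarith) (by positivity)
      nlinarith
    have hterm : ∀ l ∈ P.filter (fun l => sq q * sq q = 2 ∧ l ∣ orderOf (al q) ∧ C * (q : ℝ) ^ κ ≤ l),
        1 / (l : ℝ) ≤ 1 / C * (q : ℝ) ^ (-κ) := by
      intro l hl
      rw [Finset.mem_filter] at hl
      have hl0 : (0 : ℝ) < l := by exact_mod_cast (hPp l hl.1).pos
      have h3 := hl.2.2.2
      have h4 : 1 / (l : ℝ) ≤ 1 / (C * (q : ℝ) ^ κ) := one_div_le_one_div_of_le (by positivity) h3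
      refine h4.trans (le_of_eq ?_)
      rw [Real.rpow_neg hq0.le]
      field_simp
    calc _ ≤ ∑ l ∈ P.filter (fun l => sq q * sq q = 2 ∧ l ∣ orderOf (al q) ∧ C * (q : ℝ) ^ κ ≤ l), 1 / C * (q : ℝ) ^ (-κ) :=
          Finset.sum_le_sum hterm
      _ = (P.filter (fun l => sq q * sq q = 2 ∧ l ∣ orderOf (al q) ∧ C * (q : ℝ) ^ κ ≤ l)).card * (1 / C * (q : ℝ) ^ (-κ)) := by
          rw [Finset.sum_const, nsmul_eq_mul]
      _ ≤ 1 * (1 / C * (q : ℝ) ^ (-κ)) := by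
          apply mul_le_mul_of_nonneg_right _ (by positivity)
          exact_mod_cast hcard
      _ = _ := one_mul _
  refine (Finset.sum_le_sum h2).trans ?_
  rw [← Finset.mul_sum]
  apply mul_le_mul_of_nonneg_left _ (by positivity)
  exact Pool.Agent.X9.SQ.prime_pow_sum κ (by linarith) hκ1 Z hZ

lemma ord_be {q : ℕ} (h : sq q * sq q = 2) : orderOf (be q) = orderOf (al q) := by
  rw [orderOf_eq_orderOf_iff]
  intro n
  have e : al q ^ n * be q ^ n = 1 := by rw [← mul_pow, al_be h, one_pow]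
  constructor
  · intro h1; rwa [h1, mul_one] at e
  · intro h1; rwa [h1, one_mul] at e

lemma ord_any {q : ℕ} (hq : q.Prime) (h : sq q * sq q = 2) (s : ZMod q) (hs : s * s = 2) :
    orderOf (17 + 12 * s) = orderOf (al q) := by
  have : Fact q.Prime := ⟨hq⟩
  rcases mul_self_eq_mul_self_iff.1 (hs.trans h.symm) with h1 | h1
  · rw [h1]; rfl
  · rw [← ord_be h, h1]
    congr 1
    unfold be
    ring

/-- **no prime factors whose order has a large prime factor** -/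
theorem no_large {κ C : ℝ} (hκ1 : κ < 1) (hC : 1 ≤ C) {R w Z K F j : ℕ} (hw : 1 ≤ w)
    (hZ : (Z : ℝ) ^ (1 - κ) ≤ w) (hK : K = Nat.lcmUpto w ^ 3)
    (hF : (((3 * ∏ r ∈ range (R + 1), a r ^ 2 : ℕ) : ℤ) : ℤ√2) ∣ A ^ F - 1) (hFK : F ∣ K) (hRK : R ≤ K) (hj1 : 1 ≤ j)
    (hj : ∀ l ∈ (Ioc w Z).filter Nat.Prime, j % l ∉ badK κ C K R Z l) {r : ℕ} (hr : r ≤ R) :
    a r ∣ a (K * j + r) ∧ a r ∣ a (K * j - r) ∧
      ∀ q : ℕ, q.Prime → q ∣ (a (K * j + r) / a r) * (a (K * j - r) / a r) → q ≤ Z →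
        ∀ s : ZMod q, s * s = 2 → ∀ l : ℕ, l.Prime → l ∣ orderOf (17 + 12 * s) → (l : ℝ) < C * (q : ℝ) ^ κ := by
  obtain ⟨k, hk⟩ : ∃ k, K * j = F * k := (hFK.mul_right j)
  obtain ⟨M, hM⟩ : ∃ M : ℕ, M = 3 * ∏ r ∈ range (R + 1), a r ^ 2 := ⟨_, rfl⟩
  rw [← hM] at hF
  have hrK : r ≤ K * j := hr.trans (hRK.trans (Nat.le_mul_of_pos_right _ hj1))
  have hMr : a r ^ 2 ∣ M := by
    rw [hM]
    exact (Finset.dvd_prod_of_mem (fun r => a r ^ 2) (mem_range.2 (by omega))).mul_left _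
  have hM3 : 3 ∣ M := by rw [hM]; exact dvd_mul_right _ _
  have key : ∀ N : ℕ, (M : ℤ) ∣ (N : ℤ) - a r → ¬ 2 ∣ N →
      (∀ q : ℕ, q.Prime → q ≠ 2 → q ≠ 3 → q ∣ N → sq q * sq q = 2 ∧
        (PP q (al q ^ (K * j) * al q ^ r) ∨ PP q (al q ^ (K * j) * be q ^ r))) →
      a r ∣ N ∧ ∀ q : ℕ, q.Prime → q ∣ N / a r → q ≤ Z → ∀ s : ZMod q, s * s = 2 → ∀ l : ℕ, l.Prime →
        l ∣ orderOf (17 + 12 * s) → (l : ℝ) < C * (q : ℝ) ^ κ := by
    intro N h1 h2 h3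
    have h4 : ((a r ^ 2 : ℕ) : ℤ) ∣ (N : ℤ) - a r := (Int.natCast_dvd_natCast.2 hMr).trans h1
    push_cast at h4
    have h5 : a r ∣ N := by
      have h6 : (a r : ℤ) ∣ (N : ℤ) - a r := (Dvd.intro _ (pow_two _).symm).trans h4
      have h7 : (a r : ℤ) ∣ (N : ℤ) := by
        have := dvd_add h6 (dvd_refl (a r : ℤ))
        simpa using this
      exact_mod_cast h7
    refine ⟨h5, ?_⟩
    obtain ⟨b, rfl⟩ := h5
    have har : 0 < a r := a_pos r
    rw [Nat.mul_div_cancel_left _ har]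
    have h8 : (a r : ℤ) ∣ (b : ℤ) - 1 := by
      obtain ⟨c, hc⟩ := h4
      refine ⟨c, ?_⟩
      have har' : (a r : ℤ) ≠ 0 := by exact_mod_cast har.ne'
      apply mul_left_cancel₀ har'
      push_cast at hc
      linear_combination hc
    intro q hq hqb hqz s hss l hl hlo
    by_contra hle
    push Not at hle
    have hqa : ¬ q ∣ a r := by
      intro h
      have h9 : (q : ℤ) ∣ (b : ℤ) - 1 := (Int.natCast_dvd_natCast.2 h).trans h8
      have h10 : (q : ℤ) ∣ (b : ℤ) := Int.natCast_dvd_natCast.2 hqb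
      have h11 : (q : ℤ) ∣ 1 := by
        have := dvd_sub h10 h9
        simpa using this
      have h12 : q ∣ 1 := by exact_mod_cast h11
      exact hq.one_lt.ne' (Nat.dvd_one.1 h12)
    have hqN : q ∣ a r * b := hqb.mul_left _
    have hq2 : q ≠ 2 := by
      rintro rfl
      exact h2 hqN
    have hq3 : q ≠ 3 := by
      rintro rfl
      apply hqa
      have h9 : (3 : ℤ) ∣ ((a r * b : ℕ) : ℤ) - a r := by
        have : ((3 : ℕ) : ℤ) ∣ (M : ℤ) := Int.natCast_dvd_natCast.2 hM3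
        exact (by exact_mod_cast this : (3 : ℤ) ∣ (M : ℤ)).trans h1
      have h10 : (3 : ℤ) ∣ ((a r * b : ℕ) : ℤ) := by exact_mod_cast hqN
      have h11 : (3 : ℤ) ∣ (a r : ℤ) := by
        have := dvd_sub h10 h9
        simpa using this
      exact_mod_cast h11
    obtain ⟨hs, hP⟩ := h3 q hq hq2 hq3 hqN
    rw [ord_any hq hs s hss] at hlo
    have ho := ord_dvd hq hs
    have hq1 := hq.two_le
    obtain ⟨d, hd⟩ : ∃ d : ℕ, d = orderOf (al q) := ⟨_, rfl⟩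
    rw [← hd] at hlo ho
    have hdpos : 0 < d := Nat.pos_of_dvd_of_pos ho (by omega)
    have hdle : d ≤ q - 1 := Nat.le_of_dvd (by omega) ho
    obtain ⟨e, he⟩ := hlo
    have he1 : 1 ≤ e := by
      rcases Nat.eq_zero_or_pos e with h | h
      · rw [h, mul_zero] at he; omega
      · exact h
    have hqr : (1 : ℝ) ≤ q := by exact_mod_cast hq.pos
    have hq0 : (0 : ℝ) < q := by linarith
    have hew : e ≤ w := by
      have h3 : (l : ℝ) * e ≤ q := by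
        have : l * e ≤ q := by rw [← he]; omega
        exact_mod_cast this
      have h4 : (q : ℝ) = (q : ℝ) ^ κ * (q : ℝ) ^ (1 - κ) := by
        rw [← Real.rpow_add hq0]
        simp
      have h5 : 0 < (q : ℝ) ^ κ := Real.rpow_pos_of_pos hq0 _
      have h5' : (q : ℝ) ^ κ ≤ C * (q : ℝ) ^ κ := by nlinarith
      have h6 : (q : ℝ) ^ κ * e ≤ (q : ℝ) ^ κ * (q : ℝ) ^ (1 - κ) := by
        rw [← h4]
        have h7 : (q : ℝ) ^ κ * e ≤ (l : ℝ) * e := by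
          apply mul_le_mul_of_nonneg_right _ (Nat.cast_nonneg e)
          linarith
        linarith
      have h7 : (e : ℝ) ≤ (q : ℝ) ^ (1 - κ) := le_of_mul_le_mul_left h6 h5
      have h8 : (q : ℝ) ^ (1 - κ) ≤ (Z : ℝ) ^ (1 - κ) :=
        Real.rpow_le_rpow hq0.le (by exact_mod_cast hqz) (by linarith)
      exact_mod_cast h7.trans (h8.trans hZ)
    have heL : e ∣ Nat.lcmUpto w := dvd_lcmUpto e w he1 hew
    by_cases hlw : l ≤ w
    · have h3 : d ∣ K := by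
        rw [he, hK]
        have : Nat.lcmUpto w ^ 3 = Nat.lcmUpto w * Nat.lcmUpto w * Nat.lcmUpto w := by ring
        rw [this]
        exact (Nat.mul_dvd_mul (dvd_lcmUpto l w hl.pos hlw) heL).mul_right _
      rw [hd] at h3
      have h9 : al q ^ (K * j) = 1 := orderOf_dvd_iff_pow_eq_one.1 (h3.mul_right j)
      rw [h9, one_mul, one_mul] at hP
      rcases hP with hP | hP
      · exact hqa (dvd_of_PP hs hP)
      · exact hqa (dvd_of_PP' hs hP)
    · push Not at hlw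
      have hld : l ≤ d := Nat.le_of_dvd hdpos ⟨e, he⟩
      refine hj l (by rw [mem_filter, mem_Ioc]; exact ⟨⟨hlw, by omega⟩, hl⟩) (badK_mod hl.pos (q := q) (r := r) ?_ ?_ hr hP)
      · rw [mem_Qs]
        exact ⟨hqz, hq, hs, by rw [← hd, he]; exact dvd_mul_right _ _, hle⟩
      · rw [← hd, he, hK, mul_comm l e]
        exact Nat.mul_dvd_mul_right (heL.trans (dvd_pow_self _ (by norm_num))) l
  obtain ⟨p1, p2⟩ := key (a (K * j + r)) (by rw [hk]; exact a_add hF k r) (a_odd _) (by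
    intro q hq hq2 hq3 hqN
    have hs := sq_spec (exists_sqrt hq hq2 hq3 hqN)
    exact ⟨hs, Or.inl (PP_add hs hqN)⟩)
  obtain ⟨p3, p4⟩ := key (a (K * j - r)) (by
      rw [hk]
      exact a_sub hF k r (by rw [← hk]; exact hrK)) (a_odd _) (by
    intro q hq hq2 hq3 hqN
    have hs := sq_spec (exists_sqrt hq hq2 hq3 hqN)
    exact ⟨hs, Or.inr (PP_sub hs hrK hqN)⟩)
  refine ⟨p1, p3, fun q hq hqd => ?_⟩
  rcases (Nat.Prime.dvd_mul hq).1 hqd with h | h
  · exact p2 q hq h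
  · exact p4 q hq h

end Pool.Agent.X37.PE
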