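import Pool.Agent.X37.PF.BadK
import Pool.Agent.X37.PE.Main
import Pool.Agent.X9.SQ.Par2

/-!
# Many terms `8 d ^ 2 + 1` whose cofactor has no prime factors with a large prime in the order
-/

set_option autoImplicit false

namespace Pool.Agent.X37.PE

open Finset Filter Pool.Agent.X9.SQ

lemma survivorsK {κ C : ℝ} (hκ : 1 / 2 ≤ κ) (hκ1 : κ < 1) (R w Z : ℕ) (hC : C = 8 * (R + 1)) (hZ : 2 ≤ Z)
    (V : ℝ) (hV : V = 1 / 2 * (5 / (1 - κ) ^ 2 * ((Z : ℝ) ^ (1 - κ) / Real.log Z))) : ∃ k : ℕ,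
    (k : ℝ) ≤ 8 * V + 3 ∧ ∀ J : ℕ, (J : ℝ) * (Real.exp (-(2 * V)) / 2) - ((Z : ℝ) + 1) ^ (2 * k) ≤
      (((Ioc 0 J).filter (fun j => ∀ l ∈ (Ioc w Z).filter Nat.Prime, j % l ∉ badK κ C (Nat.lcmUpto w ^ 3) R Z l)).card : ℝ) := by
  classical
  obtain ⟨K, hK⟩ : ∃ K : ℕ, K = Nat.lcmUpto w ^ 3 := ⟨_, rfl⟩
  rw [← hK]
  obtain ⟨P, hP⟩ : ∃ P : Finset ℕ, P = (Ioc w Z).filter Nat.Prime := ⟨_, rfl⟩
  rw [← hP]
  have hR : (0 : ℝ) ≤ R := Nat.cast_nonneg R
  have hC1 : 1 ≤ C := by rw [hC]; linarith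
  have hC0 : 0 < C := by linarith
  have hlog : 0 < Real.log Z := Real.log_pos (by exact_mod_cast hZ)
  have hV0 : 0 ≤ V := by rw [hV]; positivity
  obtain ⟨k, hk, h⟩ := pure_sieve2 V hV0
  refine ⟨k, hk, fun J => ?_⟩
  have hPp : ∀ l ∈ P, l.Prime ∧ w < l ∧ l ≤ Z := by
    intro l hl
    rw [hP, mem_filter, mem_Ioc] at hl
    exact ⟨hl.2, hl.1.1, hl.1.2⟩
  have hlK : ∀ l ∈ P, ¬ l ∣ K := by
    intro l hl hd
    have h1 := hPp l hl
    rw [hK] at hd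
    have := Pool.Agent.X37.PE.prime_dvd_lcmUpto l w h1.1 (h1.1.dvd_of_dvd_pow hd)
    omega
  have hcard : ∀ l ∈ P, ((badK κ C K R Z l).card : ℝ) ≤ (Qs κ C Z l).card * ((R + 1) * 4) := by
    intro l hl
    exact_mod_cast badK_card (hPp l hl).1 (hlK l hl)
  have h1 := h (Ioc 0 J) P (fun l j => j % l ∈ badK κ C K R Z l) (fun _ _ => True) (fun l => ((badK κ C K R Z l).card : ℝ) / l)
    (fun l hl => by
      have hl0 : (0 : ℝ) < l := by exact_mod_cast (hPp l hl).1.pos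
      refine ⟨by positivity, ?_⟩
      rw [div_le_div_iff₀ hl0 (by norm_num)]
      have h2 := Qs_card hκ hC1 Z l (hPp l hl).1
      have h3 : ((Qs κ C Z l).card : ℝ) * ((R + 1) * 4) ≤ l / C ^ 2 * ((R + 1) * 4) := by gcongr
      have h4 : (l : ℝ) / C ^ 2 * ((R + 1) * 4) * 2 ≤ l := by
        rw [hC]
        have e : (l : ℝ) / (8 * (R + 1)) ^ 2 * ((R + 1) * 4) * 2 = l / (8 * (R + 1)) := by
          field_simp
          ring
        rw [e]
        exact div_le_self hl0.le (by linarith)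
      have h5 := hcard l hl
      linarith) (by
      have h2 := sum_Qs hκ hκ1 hC1 w Z hZ
      rw [← hP] at h2
      calc ∑ l ∈ P, ((badK κ C K R Z l).card : ℝ) / l ≤ ∑ l ∈ P, ((R + 1) * 4) * (((Qs κ C Z l).card : ℝ) / l) := by
            apply Finset.sum_le_sum
            intro l hl
            have hl0 : (0 : ℝ) < l := by exact_mod_cast (hPp l hl).1.pos
            rw [← mul_div_assoc]
            apply div_le_div_of_nonneg_right _ hl0.le
            exact (hcard l hl).trans (le_of_eq (mul_comm _ _))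
        _ = ((R + 1) * 4) * ∑ l ∈ P, ((Qs κ C Z l).card : ℝ) / l := by rw [Finset.mul_sum]
        _ ≤ ((R + 1) * 4) * (1 / C * (5 / (1 - κ) ^ 2 * ((Z : ℝ) ^ (1 - κ) / Real.log Z))) := by gcongr
        _ = V := by
          rw [hV, hC]
          have : (R : ℝ) + 1 ≠ 0 := by positivity
          field_simp
          ring) (((Z : ℝ) + 1) ^ k) (by
      intro T hT hTk
      have h2 := ap_count_T J T (fun l hl => (hPp l (hT hl)).1) (fun l => badK κ C K R Z l) (fun l _ i hi => badK_lt hi)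
      have h3 : (((Ioc 0 J).filter (fun X => ∀ l ∈ T, (fun _ _ => True : ℕ → ℕ → Prop) l X)).card : ℝ) = J := by
        rw [Finset.filter_true_of_mem (fun _ _ _ _ => trivial)]
        simp
      have h4 : ∏ l ∈ T, ((badK κ C K R Z l).card : ℝ) ≤ ((Z : ℝ) + 1) ^ k := by
        calc ∏ l ∈ T, ((badK κ C K R Z l).card : ℝ) ≤ ∏ _l ∈ T, ((Z : ℝ) + 1) := by
              apply Finset.prod_le_prod (fun l _ => by positivity)
              intro l hl
              have h5 : (badK κ C K R Z l).card ≤ l := by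
                have : badK κ C K R Z l ⊆ range l := fun i hi => mem_range.2 (badK_lt hi)
                have := card_le_card this
                rwa [card_range] at this
              have h6 := (hPp l (hT hl)).2.2
              have h7 : ((badK κ C K R Z l).card : ℝ) ≤ Z := by exact_mod_cast h5.trans h6
              linarith
          _ = ((Z : ℝ) + 1) ^ T.card := by rw [Finset.prod_const]
          _ ≤ _ := by
            apply pow_le_pow_right₀ _ hTk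
            have : (0 : ℝ) ≤ Z := Nat.cast_nonneg Z
            linarith
      refine le_trans (le_of_eq ?_) (h2.trans h4)
      rw [← h3]
      congr!)
  have h5 : (P.card : ℝ) + 1 ≤ (Z : ℝ) + 1 := by
    have h6 : P ⊆ Icc 1 Z := by
      intro l hl
      have := hPp l hl
      rw [mem_Icc]
      exact ⟨this.1.pos, this.2.2⟩
    have h7 := card_le_card h6
    rw [Nat.card_Icc, Nat.add_sub_cancel] at h7
    have : (P.card : ℝ) ≤ Z := by exact_mod_cast h7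
    linarith
  have h6 : ((P.card : ℝ) + 1) ^ k * ((Z : ℝ) + 1) ^ k ≤ ((Z : ℝ) + 1) ^ (2 * k) := by
    calc ((P.card : ℝ) + 1) ^ k * ((Z : ℝ) + 1) ^ k ≤ ((Z : ℝ) + 1) ^ k * ((Z : ℝ) + 1) ^ k := by gcongr
      _ = _ := by rw [← pow_add]; congr 1; ring
  have h7 : ((Ioc 0 J).card : ℝ) = J := by simp
  rw [h7] at h1
  have h8 : ((Ioc 0 J).filter (fun X => ∀ l ∈ P, ¬ (fun l j => j % l ∈ badK κ C K R Z l : ℕ → ℕ → Prop) l X)).card =
    ((Ioc 0 J).filter (fun j => ∀ l ∈ P, j % l ∉ badK κ C K R Z l)).card := rfl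
  refine le_trans ?_ (le_trans h1 (le_of_eq ?_))
  · linarith
  · congr!

/-- the good indices -/
def GoodK (R : ℕ) (κ B : ℝ) (m : ℕ) : Prop := R ≤ m ∧ ∀ r ≤ R, a r ∣ a (m + r) ∧ a r ∣ a (m - r) ∧
  ∀ q : ℕ, q.Prime → q ∣ (a (m + r) / a r) * (a (m - r) / a r) → (q : ℝ) ≤ B → ∀ s : ZMod q, s * s = 2 →
    ∀ l : ℕ, l.Prime → l ∣ orderOf (17 + 12 * s) → (l : ℝ) < 8 * (R + 1) * (q : ℝ) ^ κ

open Classical in
theorem mainK_small (R : ℕ) (κ : ℝ) (hκ : 1 / 2 ≤ κ) (hκ1 : κ < 1) (ε : ℝ) (hε : 0 < ε) (hε1 : ε ≤ 1) :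
    ∃ c : ℝ, 0 < c ∧ ∃ x₀ : ℕ, ∀ x : ℕ, x₀ ≤ x →
    (x : ℝ) ^ (1 - ε) ≤ (((Icc 1 x).filter (fun m => GoodK R κ (c * Real.log x ^ (1 / (1 - κ))) m)).card : ℝ) := by
  have hk : 0 < 1 - κ := by linarith
  obtain ⟨M, hM⟩ : ∃ M : ℕ, M = 3 * ∏ r ∈ range (R + 1), a r ^ 2 := ⟨_, rfl⟩
  have hMpos : 0 < M := by
    rw [hM]
    have : 0 < ∏ r ∈ range (R + 1), a r ^ 2 := Finset.prod_pos fun r _ => by
      have := a_pos r
      positivity
    omega
  obtain ⟨F, hF0, hF⟩ := exists_period M hMpos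
  rw [hM] at hF
  obtain ⟨c1, hc1⟩ : ∃ c1 : ℝ, c1 = ε / 200 := ⟨_, rfl⟩
  have hc1pos : 0 < c1 := by rw [hc1]; positivity
  obtain ⟨b, hb⟩ : ∃ b : ℝ, b = 1 / (1 - κ) := ⟨_, rfl⟩
  have hb0 : 0 ≤ b := by rw [hb]; positivity
  obtain ⟨M2, hM2⟩ : ∃ M2 : ℝ, M2 = 1 / 2 * (5 / (1 - κ) ^ 2) * (1000 / ε) := ⟨_, rfl⟩
  have hM20 : 0 < M2 := by rw [hM2]; positivity
  obtain ⟨c, hcpos, hpa⟩ := par_a2 κ c1 M2 hκ hκ1 hc1pos hM20
  refine ⟨c, hcpos, ?_⟩
  rw [← hb] at hpa ⊢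
  have ev : ∀ᶠ y : ℝ in atTop, (F : ℝ) + R + 16 ≤ ⌊c1 * y⌋₊ ∧ 100 / ε ≤ y ∧ 12 * (b + 1) * Real.log y ≤ ε / 100 * y := by
    filter_upwards [ev_lin ((F : ℝ) + R + 17) c1 hc1pos, eventually_ge_atTop (100 / ε),
      ev_log_pow 1 (12 * (b + 1)) (ε / 100) (by positivity)] with y g1 g2 g3
    have g5 := Nat.lt_floor_add_one (c1 * y)
    rw [pow_one] at g3
    exact ⟨by linarith, g2, g3⟩
  have ev2 := (Real.tendsto_log_atTop.comp tendsto_natCast_atTop_atTop).eventually (hpa.and ev)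
  obtain ⟨x₀, hx₀⟩ := eventually_atTop.1 ev2
  refine ⟨max x₀ 1, ?_⟩
  intro x hx
  obtain ⟨⟨gLb, gyZ, gZy, gZk, gMy, gy⟩, g1, g2, g3⟩ := hx₀ x ((le_max_left _ _).trans hx)
  have hx1 : 1 ≤ x := (le_max_right _ _).trans hx
  simp only [Function.comp] at gLb gyZ gZy gZk gMy gy g1 g2 g3
  obtain ⟨y, hy⟩ : ∃ y : ℝ, y = Real.log x := ⟨_, rfl⟩
  rw [← hy] at gLb gyZ gZy gZk gMy gy g1 g2 g3 ⊢
  obtain ⟨w, hw⟩ : ∃ w : ℕ, w = ⌊c1 * y⌋₊ := ⟨_, rfl⟩
  obtain ⟨Z, hZ⟩ : ∃ Z : ℕ, Z = ⌊c * y ^ b⌋₊ := ⟨_, rfl⟩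
  rw [← hw] at gLb gZk g1
  rw [← hZ] at gyZ gZy gZk gMy
  have hxr : (0 : ℝ) < x := by exact_mod_cast hx1
  have hy0 : 0 < y := by linarith
  have hwle : (w : ℝ) ≤ c1 * y := by rw [hw]; exact Nat.floor_le (by positivity)
  have hFw : F + R + 16 ≤ w := by exact_mod_cast g1
  have hZr : (16 : ℝ) ≤ Z := gy.trans gyZ
  have hZ2 : 2 ≤ Z := by
    have : (2 : ℝ) ≤ Z := by linarith
    exact_mod_cast this
  obtain ⟨K, hK⟩ : ∃ K : ℕ, K = Nat.lcmUpto w ^ 3 := ⟨_, rfl⟩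
  have hKpos : 0 < K := by
    rw [hK]
    exact pow_pos (Nat.pos_of_ne_zero (by
      unfold Nat.lcmUpto
      rw [Ne, Finset.lcm_eq_zero_iff]
      simp)) 3
  have hFK : F ∣ K := by
    rw [hK]
    exact (Pool.Agent.X37.PE.dvd_lcmUpto F w hF0 (by omega)).trans (dvd_pow_self _ (by norm_num))
  have hRK : R ≤ K := by
    have h1 : w ∣ K := by
      rw [hK]
      exact (Pool.Agent.X37.PE.dvd_lcmUpto w w (by omega) le_rfl).trans (dvd_pow_self _ (by norm_num))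
    have := Nat.le_of_dvd hKpos h1
    omega
  obtain ⟨V, hV⟩ : ∃ V : ℝ, V = 1 / 2 * (5 / (1 - κ) ^ 2 * ((Z : ℝ) ^ (1 - κ) / Real.log Z)) := ⟨_, rfl⟩
  obtain ⟨C, hC⟩ : ∃ C : ℝ, C = 8 * (R + 1) := ⟨_, rfl⟩
  have hR0 : (0 : ℝ) ≤ R := Nat.cast_nonneg R
  have hC1 : 1 ≤ C := by rw [hC]; linarith
  obtain ⟨k, hk', hsurv⟩ := survivorsK hκ hκ1 R w Z hC hZ2 V hV
  rw [← hK] at hsurv
  have hs := hsurv (x / K)
  -- the sizes
  have hlogZ1 : 1 ≤ Real.log Z := by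
    have h1 : Real.exp 1 ≤ Z := by
      have := Real.exp_one_lt_d9
      linarith
    have := Real.log_le_log (Real.exp_pos 1) h1
    rwa [Real.log_exp] at this
  have hV0 : 0 ≤ V := by rw [hV]; positivity
  have hVZ : V * Real.log Z ≤ ε / 1000 * y := by
    have h2 : V * Real.log Z = 1 / 2 * (5 / (1 - κ) ^ 2) * (Z : ℝ) ^ (1 - κ) := by
      rw [hV]; field_simp
    have h3 : 1 / 2 * (5 / (1 - κ) ^ 2) * (Z : ℝ) ^ (1 - κ) = ε / 1000 * (M2 * (Z : ℝ) ^ (1 - κ)) := by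
      rw [hM2]; field_simp
    rw [h2, h3]
    exact mul_le_mul_of_nonneg_left gMy (by positivity)
  have hVy : V ≤ ε / 1000 * y := by nlinarith
  have hlogZy : Real.log Z ≤ b * Real.log y := by
    have h1 := Real.log_le_log (by linarith) gZy
    rwa [Real.log_rpow hy0] at h1
  have hE : ((Z : ℝ) + 1) ^ (2 * k) ≤ Real.exp (ε / 20 * y) := by
    have h1 : ((Z : ℝ) + 1) ^ (2 * k) = Real.exp ((2 * k : ℕ) * Real.log ((Z : ℝ) + 1)) := by
      rw [← Real.log_pow, Real.exp_log (by positivity)]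
    rw [h1]
    apply Real.exp_le_exp.2
    have h2 : Real.log ((Z : ℝ) + 1) ≤ 2 * Real.log Z := by
      have h3 : (Z : ℝ) + 1 ≤ (Z : ℝ) ^ 2 := by nlinarith
      have := Real.log_le_log (by positivity) h3
      rw [Real.log_pow] at this
      exact_mod_cast this
    have h4 : (0 : ℝ) ≤ k := Nat.cast_nonneg k
    have h5 : 12 * Real.log Z ≤ ε / 100 * y := by
      have h6 : 0 ≤ Real.log y := Real.log_nonneg (by linarith)
      nlinarith
    calc ((2 * k : ℕ) : ℝ) * Real.log ((Z : ℝ) + 1) ≤ ((2 * k : ℕ) : ℝ) * (2 * Real.log Z) := by gcongr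
      _ = 4 * (k * Real.log Z) := by push_cast; ring
      _ ≤ 4 * ((8 * V + 3) * Real.log Z) := by gcongr
      _ = 32 * (V * Real.log Z) + 12 * Real.log Z := by ring
      _ ≤ 32 * (ε / 1000 * y) + ε / 100 * y := by gcongr
      _ ≤ ε / 20 * y := by nlinarith [mul_pos hε hy0]
  have hKe : (K : ℝ) ≤ Real.exp (18 * w) := by
    have h1 := log_lcm w
    rw [← hK] at h1
    rw [← Real.exp_log (show (0 : ℝ) < K by exact_mod_cast hKpos)]
    exact Real.exp_le_exp.2 h1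
  have hJ : Real.exp (y - 18 * w) - 1 ≤ ((x / K : ℕ) : ℝ) := by
    have h1 : (x : ℝ) < K * ((x / K : ℕ) + 1) := by exact_mod_cast Nat.lt_mul_div_succ x hKpos
    have h2 : Real.exp (y - 18 * w) ≤ ((x / K : ℕ) : ℝ) + 1 := by
      rw [Real.exp_sub, hy, Real.exp_log hxr, div_le_iff₀ (Real.exp_pos _)]
      calc (x : ℝ) ≤ K * ((x / K : ℕ) + 1) := h1.le
        _ ≤ Real.exp (18 * w) * ((x / K : ℕ) + 1) := by gcongr
        _ = _ := by ring
    linarith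
  have hmain : Real.exp ((1 - ε) * y) ≤ ((x / K : ℕ) : ℝ) * (Real.exp (-(2 * V)) / 2) - ((Z : ℝ) + 1) ^ (2 * k) := by
    have hwy : (w : ℝ) ≤ ε * y / 200 := by rw [hc1] at hwle; linarith
    have hεy : 100 ≤ ε * y := by
      rw [div_le_iff₀ hε] at g2
      linarith
    have hyε : ε * y ≤ y := by nlinarith
    have h2 : (Real.exp (y - 18 * w) - 1) * (Real.exp (-(2 * V)) / 2) ≤ ((x / K : ℕ) : ℝ) * (Real.exp (-(2 * V)) / 2) := by
      gcongr
    have h3 : (Real.exp (y - 18 * w) - 1) * (Real.exp (-(2 * V)) / 2) =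
        Real.exp (y - 18 * w - 2 * V) / 2 - Real.exp (-(2 * V)) / 2 := by
      have : Real.exp (y - 18 * w) * Real.exp (-(2 * V)) = Real.exp (y - 18 * w - 2 * V) := by
        rw [← Real.exp_add]; congr 1
      linear_combination (1 / 2) * this
    have h4 : Real.exp (-(2 * V)) ≤ 1 := Real.exp_le_one_iff.2 (by linarith)
    have h5 : 1 ≤ Real.exp (ε / 20 * y) := Real.one_le_exp (by positivity)
    have h8 : (8 : ℝ) ≤ Real.exp 3 := by
      have h := Real.add_one_le_exp (3 / 4 : ℝ)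
      have e : Real.exp 3 = Real.exp (3 / 4) ^ 4 := by rw [← Real.exp_nat_mul]; norm_num
      rw [e]
      calc (8 : ℝ) ≤ (3 / 4 + 1) ^ 4 := by norm_num
        _ ≤ _ := by gcongr
    have h6 : 8 * Real.exp (ε / 20 * y) ≤ Real.exp (y - 18 * w - 2 * V) := by
      calc 8 * Real.exp (ε / 20 * y) ≤ Real.exp 3 * Real.exp (ε / 20 * y) := by gcongr
        _ = Real.exp (3 + ε / 20 * y) := (Real.exp_add _ _).symm
        _ ≤ _ := Real.exp_le_exp.2 (by nlinarith)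
    have h7 : 8 * Real.exp ((1 - ε) * y) ≤ Real.exp (y - 18 * w - 2 * V) := by
      calc 8 * Real.exp ((1 - ε) * y) ≤ Real.exp 3 * Real.exp ((1 - ε) * y) := by gcongr
        _ = Real.exp (3 + (1 - ε) * y) := (Real.exp_add _ _).symm
        _ ≤ _ := Real.exp_le_exp.2 (by nlinarith)
    linarith
  have hxe : (x : ℝ) ^ (1 - ε) = Real.exp ((1 - ε) * y) := by
    rw [Real.rpow_def_of_pos hxr, hy]
    congr 1
    ring
  rw [hxe]
  refine hmain.trans (hs.trans ?_)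
  norm_cast
  apply Finset.card_le_card_of_injOn (fun j => K * j)
  · intro j hj
    rw [Finset.mem_coe, mem_filter, mem_Ioc] at hj
    obtain ⟨⟨hj1, hj2⟩, hj3⟩ := hj
    rw [Finset.mem_coe, mem_filter, mem_Icc]
    refine ⟨⟨Nat.mul_pos hKpos hj1, ?_⟩, ?_, ?_⟩
    · calc K * j ≤ K * (x / K) := Nat.mul_le_mul_left _ hj2
        _ ≤ x := Nat.mul_div_le _ _
    · exact hRK.trans (Nat.le_mul_of_pos_right _ hj1)
    · intro r hr
      obtain ⟨p1, p2, p3⟩ := no_large hκ1 hC1 (by omega) gZk hK hF hFK hRK hj1 hj3 hr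
      refine ⟨p1, p2, fun q hq hqd hqB s hs l hl hlo => ?_⟩
      have hqZ : q ≤ Z := by rw [hZ]; exact Nat.le_floor hqB
      have := p3 q hq hqd hqZ s hs l hl hlo
      rwa [hC] at this
  · intro i _ j _ hij
    exact Nat.eq_of_mul_eq_mul_left hKpos hij

open Classical in
/-- **Blocks of terms whose cofactors have no prime factors with a large prime in the order.** -/
theorem mainK (R : ℕ) (κ : ℝ) (hκ : 1 / 2 ≤ κ) (hκ1 : κ < 1) (ε : ℝ) (hε : 0 < ε) : ∃ c : ℝ, 0 < c ∧ ∃ x₀ : ℕ, ∀ x : ℕ, x₀ ≤ x →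
    (x : ℝ) ^ (1 - ε) ≤ (((Icc 1 x).filter (fun m => GoodK R κ (c * Real.log x ^ (1 / (1 - κ))) m)).card : ℝ) := by
  obtain ⟨c, hc, x₀, h⟩ := mainK_small R κ hκ hκ1 (min ε 1) (lt_min hε one_pos) (min_le_right _ _)
  refine ⟨c, hc, max x₀ 1, fun x hx => ?_⟩
  refine le_trans ?_ (h x ((le_max_left _ _).trans hx))
  apply Real.rpow_le_rpow_of_exponent_le
  · exact_mod_cast (le_max_right _ _).trans hx
  · have := min_le_left ε 1
    linarith

end Pool.Agent.X37.PE
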